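import Mathlib

set_option autoImplicit false

namespace Pool.Agent.H20.SD

/-- the base ring `ℂ[u][v]` -/
abbrev B : Type := Polynomial (Polynomial ℂ)
noncomputable abbrev uu : B := Polynomial.C Polynomial.X
noncomputable abbrev vv : B := Polynomial.X
/-- polynomial ring in variables `x_i`, `i ∈ I` -/
abbrev A (I : Type) : Type := MvPolynomial I B
/-- quaternion algebra `i² = u`, `j² = v` over `A I` -/
abbrev Q (I : Type) : Type := QuaternionAlgebra (A I) (MvPolynomial.C uu) 0 (MvPolynomial.C vv)
abbrev F : Type := FractionRing B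
abbrev D : Type := QuaternionAlgebra F (algebraMap B F uu) 0 (algebraMap B F vv)

/-- functoriality of quaternion algebras -/
def qmap {S T : Type} [CommRing S] [CommRing T] (φ : S →+* T) {a b : S} {a' b' : T}
    (ha : φ a = a') (hb : φ b = b') : QuaternionAlgebra S a 0 b →+* QuaternionAlgebra T a' 0 b' where
  toFun x := ⟨φ x.re, φ x.imI, φ x.imJ, φ x.imK⟩
  map_one' := by ext <;> simp
  map_zero' := by ext <;> simp
  map_add' x y := by ext <;> simp
  map_mul' x y := by subst ha hb; ext <;> simp

end Pool.Agent.H20.SD
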