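import Mathlib

set_option autoImplicit false

open FirstOrder FirstOrder.Language

namespace Pool.Agent.H20.SD

/-- `R` is a subdirect product of division rings (rings with unit, unital homomorphisms) -/
def IsSubdirect (R : Type) [Ring R] : Prop :=
  ∃ (ι : Type) (D : ι → Type) (_ : ∀ i, DivisionRing (D i)) (φ : R →+* (∀ i, D i)),
    Function.Injective φ ∧ ∀ i, Function.Surjective (fun r => φ r i)

/-- `R` is a subdirect product of division rings (rings not necessarily with unit, homomorphisms
not necessarily unital) -/
def IsSubdirectNU (R : Type) [NonUnitalRing R] : Prop :=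
  ∃ (ι : Type) (D : ι → Type) (_ : ∀ i, DivisionRing (D i)) (φ : R →ₙ+* (∀ i, D i)),
    Function.Injective φ ∧ ∀ i, Function.Surjective (fun r => φ r i)

/-- function symbols of the language `(+, -, ·, 0)` -/
inductive NUFunc : ℕ → Type
  | add : NUFunc 2
  | mul : NUFunc 2
  | neg : NUFunc 1
  | zero : NUFunc 0

/-- the language `(+, -, ·, 0)` of rings without a symbol for the unit -/
def nuLang : Language := ⟨NUFunc, fun _ => Empty⟩

/-- every ring is a structure for the language `(+, -, ·, 0)` -/
def nuStructure (R : Type) [NonUnitalRing R] : nuLang.Structure R where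
  funMap {n} (f : NUFunc n) := match n, f with
    | _, .add => fun x => x 0 + x 1
    | _, .mul => fun x => x 0 * x 1
    | _, .neg => fun x => - x 0
    | _, .zero => fun _ => 0
  RelMap {_} r := nomatch (r : Empty)

theorem elem {L : Language} {M N : Type} [L.Structure M] [L.Structure N] (e : M ↪[L] N)
    (h : ∀ (s : Finset M) (b : N), ∃ g : N ≃[L] N, (∀ a ∈ s, g (e a) = e a) ∧ ∃ a, e a = g b)
    (T : L.Theory) (hN : N ⊨ T) : M ⊨ T := by
  classical
  refine ((e.toElementaryEmbedding ?_).theory_model_iff T).mpr hN
  intro n φ x a hφ
  obtain ⟨g, hg, c, hc⟩ := h (Finset.univ.image x) a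
  refine ⟨c, ?_⟩
  have h1 := (StrongHomClass.realize_boundedFormula g φ (v := default)
    (xs := (Fin.snoc (e ∘ x) a : Fin (n + 1) → N))).mpr hφ
  have h2 : (g ∘ (default : Empty → N)) = default := Subsingleton.elim _ _
  have h3 : (g ∘ (Fin.snoc (e ∘ x) a : Fin (n + 1) → N)) = Fin.snoc (e ∘ x) (e c) := by
    funext i
    refine Fin.lastCases ?_ (fun i => ?_) i
    · simp [hc]
    · simp only [Function.comp, Fin.snoc_castSucc]
      exact hg _ (Finset.mem_image_of_mem x (Finset.mem_univ i))
  rw [h2, h3] at h1
  exact h1

section ring
variable {R S : Type} [Ring R] [Ring S]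

/-- an injective ring homomorphism as an embedding of structures -/
noncomputable def ringEmb (f : R →+* S) (hf : Function.Injective f)
    [FirstOrder.Ring.CompatibleRing R] [FirstOrder.Ring.CompatibleRing S] :
    R ↪[Language.ring] S where
  toFun := f
  inj' := hf
  map_fun' {n} g x := by
    cases g with
    | add => simp
    | mul => simp
    | neg => simp
    | zero => simp
    | one => simp
  map_rel' {n} r := nomatch (r : Empty)

/-- an injective homomorphism as an embedding of structures, without unit -/
def nuEmb (f : R →+* S) (hf : Function.Injective f) :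
    @Language.Embedding nuLang R S (nuStructure R) (nuStructure S) :=
  letI := nuStructure R
  letI := nuStructure S
  { toFun := f
    inj' := hf
    map_fun' := by
      intro n g x
      cases g with
      | add => exact map_add f _ _
      | mul => exact map_mul f _ _
      | neg => exact map_neg f _
      | zero => exact map_zero f
    map_rel' := by
      intro n r
      exact nomatch (r : Empty) }

def nuEquiv (f : R ≃+* S) :
    @Language.Equiv nuLang R S (nuStructure R) (nuStructure S) :=
  letI := nuStructure R
  letI := nuStructure S
  { toEquiv := f.toEquiv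
    map_fun' := by
      intro n g x
      cases g with
      | add => exact map_add f _ _
      | mul => exact map_mul f _ _
      | neg => exact map_neg f _
      | zero => exact map_zero f
    map_rel' := by
      intro n r
      exact nomatch (r : Empty) }

end ring

end Pool.Agent.H20.SD
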